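import Mathlib

/-! Numbers with a large divisor in a thin set (helper609) -/

set_option autoImplicit false

namespace Run7.h609.DV

open Finset

/-- the multiples of `m` up to `N` -/
lemma card_mult (N m : ℕ) : ((Icc 1 N).filter (fun n => m ∣ n)).card ≤ N / m := by
  have e : (Icc 1 N).filter (fun n => m ∣ n) = (Ioc 0 N).filter (fun n => m ∣ n) := by
    ext n
    simp only [mem_filter, mem_Icc, mem_Ioc]
    constructor
    · rintro ⟨⟨h1, h2⟩, h3⟩
      exact ⟨⟨by omega, h2⟩, h3⟩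
    · rintro ⟨⟨h1, h2⟩, h3⟩
      exact ⟨⟨by omega, h2⟩, h3⟩
  rw [e]
  exact (Nat.Ioc_filter_dvd_card_eq_div N m).le

open Classical in
/-- **Core.** If at most the proportion `s` of the numbers up to `X` is in `B`, for `Y ≤ X ≤ 2 N`, then at most `2 s N (log₂ N + 1)`
of the numbers up to `N` have a divisor `m ≥ Y` in `B`. -/
theorem core (B : Set ℕ) (Y N : ℕ) (hY : 1 ≤ Y) (s : ℝ) (hs : 0 ≤ s)
    (hB : ∀ X : ℕ, Y ≤ X → X ≤ 2 * N → (((Icc 1 X).filter (fun m => m ∈ B)).card : ℝ) ≤ s * X) :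
    (((Icc 1 N).filter (fun n => ∃ m ∈ B, m ∣ n ∧ Y ≤ m)).card : ℝ) ≤ 2 * s * N * (Nat.log 2 N + 1) := by
  obtain ⟨D, hD⟩ : ∃ D : ℕ → Finset ℕ, D = fun j =>
      (Icc 1 (2 ^ (j + 1) * Y)).filter (fun m => m ∈ B ∧ 2 ^ j * Y ≤ m ∧ m ≤ N) := ⟨_, rfl⟩
  have hsub : (Icc 1 N).filter (fun n => ∃ m ∈ B, m ∣ n ∧ Y ≤ m) ⊆
      (range (Nat.log 2 N + 1)).biUnion fun j => (D j).biUnion fun m => (Icc 1 N).filter (fun n => m ∣ n) := by
    intro n hn
    rw [mem_filter, mem_Icc] at hn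
    obtain ⟨⟨h1, h2⟩, m, hmB, hmn, hYm⟩ := hn
    have hmN : m ≤ N := (Nat.le_of_dvd (by omega) hmn).trans h2
    obtain ⟨j, hj⟩ : ∃ j, j = Nat.log 2 (m / Y) := ⟨_, rfl⟩
    have hq : m / Y ≠ 0 := by
      have : 1 ≤ m / Y := (Nat.one_le_div_iff (by omega)).2 hYm
      omega
    have h3 : 2 ^ j ≤ m / Y := by rw [hj]; exact Nat.pow_log_le_self 2 hq
    have h4 : m / Y < 2 ^ (j + 1) := by rw [hj]; exact Nat.lt_pow_succ_log_self (by norm_num) _
    have h5 : 2 ^ j * Y ≤ m := (Nat.mul_le_mul_right _ h3).trans (Nat.div_mul_le_self m Y)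
    have h6 : m < 2 ^ (j + 1) * Y := (Nat.div_lt_iff_lt_mul (by omega)).1 h4
    have h7 : j ≤ Nat.log 2 N := by
      rw [hj]
      exact Nat.log_mono_right ((Nat.div_le_self _ _).trans hmN)
    rw [mem_biUnion]
    refine ⟨j, mem_range.2 (by omega), ?_⟩
    rw [mem_biUnion]
    refine ⟨m, ?_, ?_⟩
    · rw [hD, mem_filter, mem_Icc]
      exact ⟨⟨by omega, h6.le⟩, hmB, h5, hmN⟩
    · rw [mem_filter, mem_Icc]
      exact ⟨⟨h1, h2⟩, hmn⟩
  have hDj : ∀ j ∈ range (Nat.log 2 N + 1), ((((D j).biUnion fun m => (Icc 1 N).filter (fun n => m ∣ n)).card : ℕ) : ℝ) ≤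
      2 * s * N := by
    intro j _
    rcases (D j).eq_empty_or_nonempty with he | ⟨m0, hm0⟩
    · rw [he]
      simp only [biUnion_empty, card_empty, Nat.cast_zero]
      positivity
    have hle : 2 ^ j * Y ≤ N := by
      rw [hD, mem_filter] at hm0
      exact hm0.2.2.1.trans hm0.2.2.2
    have hP : 0 < 2 ^ j * Y := Nat.mul_pos (by positivity) (by omega)
    have hPr : (0 : ℝ) < ((2 ^ j * Y : ℕ) : ℝ) := by exact_mod_cast hP
    have h1 : (((D j).card : ℕ) : ℝ) ≤ s * (2 * ((2 ^ j * Y : ℕ) : ℝ)) := by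
      have h2 : 2 ^ (j + 1) * Y = 2 * (2 ^ j * Y) := by rw [pow_succ]; ring
      have h3 := hB (2 ^ (j + 1) * Y) (by
        calc Y = 1 * Y := (one_mul Y).symm
          _ ≤ 2 ^ (j + 1) * Y := Nat.mul_le_mul_right _ Nat.one_le_two_pow) (by omega)
      have h4 : (D j).card ≤ ((Icc 1 (2 ^ (j + 1) * Y)).filter (fun m => m ∈ B)).card := by
        rw [hD]
        refine card_le_card fun m hm => ?_
        rw [mem_filter] at hm ⊢
        exact ⟨hm.1, hm.2.1⟩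
      have h5 : (((D j).card : ℕ) : ℝ) ≤ s * ((2 ^ (j + 1) * Y : ℕ) : ℝ) := le_trans (by exact_mod_cast h4) h3
      rw [h2] at h5
      push_cast at h5 ⊢
      exact h5
    have h6 : ∀ m ∈ D j, ((((Icc 1 N).filter (fun n => m ∣ n)).card : ℕ) : ℝ) ≤ N / ((2 ^ j * Y : ℕ) : ℝ) := by
      intro m hm
      rw [hD, mem_filter] at hm
      have h7 := card_mult N m
      have h8 : N / m ≤ N / (2 ^ j * Y) := Nat.div_le_div_left hm.2.2.1 hP
      have h9 : ((N / (2 ^ j * Y) : ℕ) : ℝ) ≤ N / ((2 ^ j * Y : ℕ) : ℝ) := Nat.cast_div_le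
      exact le_trans (by exact_mod_cast h7.trans h8) h9
    calc ((((D j).biUnion fun m => (Icc 1 N).filter (fun n => m ∣ n)).card : ℕ) : ℝ)
        ≤ ∑ m ∈ D j, ((((Icc 1 N).filter (fun n => m ∣ n)).card : ℕ) : ℝ) := by
          have := card_biUnion_le (s := D j) (t := fun m => (Icc 1 N).filter (fun n => m ∣ n))
          exact_mod_cast this
      _ ≤ ∑ _m ∈ D j, (N / ((2 ^ j * Y : ℕ) : ℝ) : ℝ) := sum_le_sum h6
      _ = (D j).card * (N / ((2 ^ j * Y : ℕ) : ℝ)) := by rw [sum_const, nsmul_eq_mul]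
      _ ≤ (s * (2 * ((2 ^ j * Y : ℕ) : ℝ))) * (N / ((2 ^ j * Y : ℕ) : ℝ)) := by
          apply mul_le_mul_of_nonneg_right h1 (by positivity)
      _ = 2 * s * N := by field_simp
  calc (((Icc 1 N).filter (fun n => ∃ m ∈ B, m ∣ n ∧ Y ≤ m)).card : ℝ)
      ≤ ∑ j ∈ range (Nat.log 2 N + 1), ((((D j).biUnion fun m => (Icc 1 N).filter (fun n => m ∣ n)).card : ℕ) : ℝ) := by
        have := (card_le_card hsub).trans card_biUnion_le
        exact_mod_cast this
    _ ≤ ∑ _j ∈ range (Nat.log 2 N + 1), 2 * s * N := sum_le_sum hDj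
    _ = 2 * s * N * (Nat.log 2 N + 1) := by
      rw [sum_const, card_range, nsmul_eq_mul]
      push_cast
      ring

end Run7.h609.DV
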