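import Mathlib
import Pool.Agent.Run7.h609.DV.A

/-! Numbers with a large divisor in a thin set: power saving, saving of logarithms, and orders of integers
modulo primes (helper609) -/

set_option autoImplicit false

namespace Run7.h609.DV

open Finset

lemma natLog_le {N : ℕ} (hN : 1 ≤ N) : (Nat.log 2 N : ℝ) + 1 ≤ 2 * Real.log N + 1 := by
  have h1 : (2 : ℝ) ^ (Nat.log 2 N) ≤ N := by exact_mod_cast Nat.pow_log_le_self 2 (by omega)
  have h2 := Real.log_le_log (by positivity) h1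
  rw [Real.log_pow] at h2
  have h3 : (1 : ℝ) / 2 ≤ Real.log 2 := by
    have := Real.log_two_gt_d9
    linarith
  have h4 : (0 : ℝ) ≤ Nat.log 2 N := Nat.cast_nonneg _
  nlinarith

open Classical in
/-- the numbers `n ≤ N` with a divisor `m ≥ n ^ δ` in `B`, in terms of the core -/
theorem split (B : Set ℕ) {δ : ℝ} (hδ : 0 < δ) (hδ1 : δ ≤ 1) {N : ℕ} (hN : 1 ≤ N) {s : ℝ} (hs : 0 ≤ s)
    (hB : ∀ X : ℕ, (N : ℝ) ^ (δ / 2) ≤ X → X ≤ 2 * N → (((Icc 1 X).filter (fun m => m ∈ B)).card : ℝ) ≤ s * X) :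
    (((Icc 1 N).filter (fun n => ∃ m ∈ B, m ∣ n ∧ (n : ℝ) ^ δ ≤ m)).card : ℝ) ≤
      (N : ℝ) ^ (1 / 2 : ℝ) + 2 * s * N * (2 * Real.log N + 1) := by
  have hN1 : (1 : ℝ) ≤ N := by exact_mod_cast hN
  obtain ⟨Y, hY⟩ : ∃ Y : ℕ, Y = ⌈(N : ℝ) ^ (δ / 2)⌉₊ := ⟨_, rfl⟩
  have hP : (1 : ℝ) ≤ (N : ℝ) ^ (δ / 2) := Real.one_le_rpow hN1 (by linarith)
  have hY1 : 1 ≤ Y := by
    rw [hY]
    exact Nat.one_le_iff_ne_zero.2 (by
      have : 0 < ⌈(N : ℝ) ^ (δ / 2)⌉₊ := Nat.ceil_pos.2 (by linarith)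
      omega)
  have h1 := core B Y N hY1 s hs (fun X hX hXN => hB X ((Nat.ceil_le.1 (hY ▸ hX))) hXN)
  have hsub : (Icc 1 N).filter (fun n => ∃ m ∈ B, m ∣ n ∧ (n : ℝ) ^ δ ≤ m) ⊆
      Icc 1 ⌊(N : ℝ) ^ (1 / 2 : ℝ)⌋₊ ∪ (Icc 1 N).filter (fun n => ∃ m ∈ B, m ∣ n ∧ Y ≤ m) := by
    intro n hn
    rw [mem_filter, mem_Icc] at hn
    obtain ⟨⟨hn1, hnN⟩, m, hm, hmn, hnm⟩ := hn
    rw [mem_union, mem_Icc, mem_filter, mem_Icc]
    by_cases h : (n : ℝ) ≤ (N : ℝ) ^ (1 / 2 : ℝ)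
    · left
      exact ⟨hn1, Nat.le_floor h⟩
    · right
      push Not at h
      refine ⟨⟨hn1, hnN⟩, m, hm, hmn, ?_⟩
      rw [hY]
      apply Nat.ceil_le.2
      calc (N : ℝ) ^ (δ / 2) = ((N : ℝ) ^ (1 / 2 : ℝ)) ^ δ := by
            rw [← Real.rpow_mul (by linarith)]
            congr 1
            ring
        _ ≤ (n : ℝ) ^ δ := Real.rpow_le_rpow (by positivity) h.le hδ.le
        _ ≤ m := hnm
  have h2 := (card_le_card hsub).trans (card_union_le _ _)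
  rw [Nat.card_Icc, Nat.add_sub_cancel] at h2
  have h3 : ((⌊(N : ℝ) ^ (1 / 2 : ℝ)⌋₊ : ℕ) : ℝ) ≤ (N : ℝ) ^ (1 / 2 : ℝ) := Nat.floor_le (by positivity)
  have h4 : (((Icc 1 N).filter (fun n => ∃ m ∈ B, m ∣ n ∧ (n : ℝ) ^ δ ≤ m)).card : ℝ) ≤
      ((⌊(N : ℝ) ^ (1 / 2 : ℝ)⌋₊ : ℕ) : ℝ) + (((Icc 1 N).filter (fun n => ∃ m ∈ B, m ∣ n ∧ Y ≤ m)).card : ℝ) := by
    exact_mod_cast h2
  have h5 : 2 * s * N * ((Nat.log 2 N : ℝ) + 1) ≤ 2 * s * N * (2 * Real.log N + 1) :=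
    mul_le_mul_of_nonneg_left (natLog_le hN) (by positivity)
  linarith

open Classical in
/-- **power saving** -/
theorem div_pow (B : Set ℕ) {σ K : ℝ} (hσ : σ < 1)
    (hB : ∀ X : ℕ, 1 ≤ X → (((Icc 1 X).filter (fun m => m ∈ B)).card : ℝ) ≤ K * (X : ℝ) ^ σ)
    {δ : ℝ} (hδ : 0 < δ) (hδ1 : δ ≤ 1) :
    ∃ η C : ℝ, 0 < η ∧ ∀ N : ℕ, 1 ≤ N →
      (((Icc 1 N).filter (fun n => ∃ m ∈ B, m ∣ n ∧ (n : ℝ) ^ δ ≤ m)).card : ℝ) ≤ C * (N : ℝ) ^ (1 - η) := by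
  obtain ⟨e, he⟩ : ∃ e : ℝ, e = δ / 2 * (1 - σ) := ⟨_, rfl⟩
  have he0 : 0 < e := by
    rw [he]
    exact mul_pos (by linarith) (by linarith)
  obtain ⟨η, hη⟩ : ∃ η : ℝ, η = min (1 / 2) (e / 2) := ⟨_, rfl⟩
  have hη0 : 0 < η := by rw [hη]; exact lt_min (by norm_num) (by linarith)
  have hη1 : η ≤ 1 / 2 := by rw [hη]; exact min_le_left _ _
  have hη2 : η ≤ e / 2 := by rw [hη]; exact min_le_right _ _
  refine ⟨η, 1 + 2 * |K| * (2 * (2 / e) + 1), hη0, fun N hN => ?_⟩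
  have hN1 : (1 : ℝ) ≤ N := by exact_mod_cast hN
  have hN0 : (0 : ℝ) < N := by linarith
  have h1 := split B hδ hδ1 hN (s := |K| * (N : ℝ) ^ (-e)) (by positivity) (fun X hX hXN => by
    have hX1 : (1 : ℝ) ≤ X := (Real.one_le_rpow hN1 (by linarith)).trans hX
    have hX1' : 1 ≤ X := by exact_mod_cast hX1
    have hX0 : (0 : ℝ) < X := by linarith
    calc (((Icc 1 X).filter (fun m => m ∈ B)).card : ℝ) ≤ K * (X : ℝ) ^ σ := hB X hX1'
      _ ≤ |K| * (X : ℝ) ^ σ := mul_le_mul_of_nonneg_right (le_abs_self _) (by positivity)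
      _ = |K| * (X : ℝ) ^ (-(1 - σ)) * X := by
        rw [mul_assoc, ← Real.rpow_add_one hX0.ne']
        congr 2
        ring
      _ ≤ |K| * (N : ℝ) ^ (-e) * X := by
        apply mul_le_mul_of_nonneg_right _ hX0.le
        apply mul_le_mul_of_nonneg_left _ (abs_nonneg _)
        have h2 : (N : ℝ) ^ (-e) = ((N : ℝ) ^ (δ / 2)) ^ (-(1 - σ)) := by
          rw [← Real.rpow_mul hN0.le, he]
          congr 1
          ring
        rw [h2]
        exact Real.rpow_le_rpow_of_nonpos (by positivity) hX (by linarith))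
  have h3 : Real.log N ≤ (2 / e) * (N : ℝ) ^ (e / 2) := by
    have h4 := Real.log_le_rpow_div hN0.le (show 0 < e / 2 by linarith)
    refine h4.trans (le_of_eq ?_)
    field_simp
  have h5 : (1 : ℝ) ≤ (N : ℝ) ^ (e / 2) := Real.one_le_rpow hN1 (by linarith)
  have h6 : 2 * Real.log N + 1 ≤ (2 * (2 / e) + 1) * (N : ℝ) ^ (e / 2) := by nlinarith
  have h7 : (N : ℝ) ^ (1 / 2 : ℝ) ≤ (N : ℝ) ^ (1 - η) := Real.rpow_le_rpow_of_exponent_le hN1 (by linarith)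
  have h8 : (N : ℝ) ^ (-e) * N * (N : ℝ) ^ (e / 2) ≤ (N : ℝ) ^ (1 - η) := by
    have h9 : (N : ℝ) ^ (-e) * N * (N : ℝ) ^ (e / 2) = (N : ℝ) ^ (1 - e / 2) := by
      have : (N : ℝ) ^ (-e) * N = (N : ℝ) ^ (-e + 1) := (Real.rpow_add_one hN0.ne' _).symm
      rw [this, ← Real.rpow_add hN0]
      congr 1
      ring
    rw [h9]
    exact Real.rpow_le_rpow_of_exponent_le hN1 (by linarith)
  calc (((Icc 1 N).filter (fun n => ∃ m ∈ B, m ∣ n ∧ (n : ℝ) ^ δ ≤ m)).card : ℝ)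
      ≤ (N : ℝ) ^ (1 / 2 : ℝ) + 2 * (|K| * (N : ℝ) ^ (-e)) * N * (2 * Real.log N + 1) := h1
    _ ≤ (N : ℝ) ^ (1 - η) + 2 * (|K| * (N : ℝ) ^ (-e)) * N * ((2 * (2 / e) + 1) * (N : ℝ) ^ (e / 2)) := by
        apply add_le_add h7
        exact mul_le_mul_of_nonneg_left h6 (by positivity)
    _ = (N : ℝ) ^ (1 - η) + 2 * |K| * (2 * (2 / e) + 1) * ((N : ℝ) ^ (-e) * N * (N : ℝ) ^ (e / 2)) := by ring
    _ ≤ (N : ℝ) ^ (1 - η) + 2 * |K| * (2 * (2 / e) + 1) * (N : ℝ) ^ (1 - η) := by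
        apply add_le_add le_rfl
        exact mul_le_mul_of_nonneg_left h8 (by positivity)
    _ = _ := by ring

/-- the primes `p ≤ N` not dividing `a` with the order of `a` smaller than `Y` -/
theorem small_order {a : ℤ} (ha : 2 ≤ |a|) (N Y : ℕ) :
    (((Icc 1 N).filter (fun p : ℕ => p.Prime ∧ ¬ (p : ℤ) ∣ a ∧ orderOf (a : ZMod p) < Y)).card : ℝ) ≤
      (Real.log |a| / Real.log 2 + 1) * Y ^ 2 := by
  classical
  have ha1 : 2 ≤ a.natAbs := by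
    have : ((a.natAbs : ℕ) : ℤ) = |a| := Int.natCast_natAbs a
    omega
  have hsub : (Icc 1 N).filter (fun p : ℕ => p.Prime ∧ ¬ (p : ℤ) ∣ a ∧ orderOf (a : ZMod p) < Y) ⊆
      (Icc 1 (Y - 1)).biUnion fun k => (a ^ k - 1).natAbs.primeFactors := by
    intro p hp
    rw [mem_filter, mem_Icc] at hp
    obtain ⟨-, hpp, hpa, hY⟩ := hp
    have : Fact p.Prime := ⟨hpp⟩
    have hne : (a : ZMod p) ≠ 0 := fun h => hpa ((ZMod.intCast_zmod_eq_zero_iff_dvd _ _).1 h)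
    have hfin : IsOfFinOrder (a : ZMod p) := by
      rw [isOfFinOrder_iff_pow_eq_one]
      exact ⟨p - 1, Nat.sub_pos_of_lt hpp.one_lt, ZMod.pow_card_sub_one_eq_one hne⟩
    have hpos := hfin.orderOf_pos
    rw [mem_biUnion]
    refine ⟨orderOf (a : ZMod p), mem_Icc.2 ⟨hpos, by omega⟩, ?_⟩
    have h1 := pow_orderOf_eq_one (a : ZMod p)
    have h2 : (p : ℤ) ∣ a ^ (orderOf (a : ZMod p)) - 1 := by
      rw [← ZMod.intCast_zmod_eq_zero_iff_dvd]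
      push_cast
      rw [h1, sub_self]
    rw [Nat.mem_primeFactors]
    refine ⟨hpp, Int.natCast_dvd.1 h2, ?_⟩
    intro h0
    rw [Int.natAbs_eq_zero, sub_eq_zero] at h0
    have h3 := congrArg Int.natAbs h0
    rw [Int.natAbs_pow, Int.natAbs_one] at h3
    have h4 : 1 < a.natAbs ^ orderOf (a : ZMod p) := Nat.one_lt_pow hpos.ne' (by omega)
    omega
  have hk : ∀ k ∈ Icc 1 (Y - 1), ((((a ^ k - 1).natAbs.primeFactors).card : ℕ) : ℝ) ≤ (Real.log |a| / Real.log 2 + 1) * Y := by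
    intro k hk
    rw [mem_Icc] at hk
    have hl2 : 0 < Real.log 2 := Real.log_pos (by norm_num)
    have hla : 0 < Real.log ((|a| : ℤ) : ℝ) := Real.log_pos (by
      have : (2 : ℝ) ≤ ((|a| : ℤ) : ℝ) := by exact_mod_cast ha
      linarith)
    have hn0 : (a ^ k - 1).natAbs ≠ 0 := by
      intro h0
      rw [Int.natAbs_eq_zero, sub_eq_zero] at h0
      have h3 := congrArg Int.natAbs h0
      rw [Int.natAbs_pow, Int.natAbs_one] at h3
      have h4 : 1 < a.natAbs ^ k := Nat.one_lt_pow (by omega) (by omega)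
      omega
    have h1 : 2 ^ ((a ^ k - 1).natAbs.primeFactors).card ≤ (a ^ k - 1).natAbs := by
      have h5 : ∏ p ∈ (a ^ k - 1).natAbs.primeFactors, 2 ≤ ∏ p ∈ (a ^ k - 1).natAbs.primeFactors, p :=
        prod_le_prod' fun p hp => (Nat.prime_of_mem_primeFactors hp).two_le
      rw [prod_const] at h5
      exact h5.trans (Nat.le_of_dvd (Nat.pos_of_ne_zero hn0) (Nat.prod_primeFactors_dvd _))
    have h2 : (a ^ k - 1).natAbs ≤ 2 * a.natAbs ^ k := by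
      have h6 := Int.natAbs_sub_le (a ^ k) 1
      rw [Int.natAbs_pow, Int.natAbs_one] at h6
      have h7 : 1 ≤ a.natAbs ^ k := Nat.one_le_pow _ _ (by omega)
      omega
    have h3 : (2 : ℝ) ^ ((a ^ k - 1).natAbs.primeFactors).card ≤ 2 * (((|a| : ℤ) : ℝ)) ^ k := by
      have h8 : ((a.natAbs : ℕ) : ℝ) = ((|a| : ℤ) : ℝ) := by
        exact Nat.cast_natAbs a
      rw [← h8]
      exact_mod_cast h1.trans h2
    have h4 := Real.log_le_log (by positivity) h3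
    have ha0 : (0 : ℝ) < ((|a| : ℤ) : ℝ) := by
      have : (2 : ℝ) ≤ ((|a| : ℤ) : ℝ) := by exact_mod_cast ha
      linarith
    rw [Real.log_pow, Real.log_mul (by norm_num) (by positivity), Real.log_pow] at h4
    have hkY : (k : ℝ) + 1 ≤ Y := by
      have : k + 1 ≤ Y := by omega
      exact_mod_cast this
    have h9 : ((((a ^ k - 1).natAbs.primeFactors).card : ℕ) : ℝ) ≤ 1 + k * (Real.log ((|a| : ℤ) : ℝ) / Real.log 2) := by
      rw [← mul_le_mul_iff_left₀ hl2]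
      have : (1 + (k : ℝ) * (Real.log ((|a| : ℤ) : ℝ) / Real.log 2)) * Real.log 2 =
        Real.log 2 + k * Real.log ((|a| : ℤ) : ℝ) := by field_simp
      rw [this]
      exact h4
    have h10 : 0 < Real.log ((|a| : ℤ) : ℝ) / Real.log 2 := div_pos hla hl2
    refine h9.trans ?_
    push_cast at h10 ⊢
    nlinarith
  have h1 := (card_le_card hsub).trans card_biUnion_le
  have h2 : (((Icc 1 N).filter (fun p : ℕ => p.Prime ∧ ¬ (p : ℤ) ∣ a ∧ orderOf (a : ZMod p) < Y)).card : ℝ) ≤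
      ∑ k ∈ Icc 1 (Y - 1), ((((a ^ k - 1).natAbs.primeFactors).card : ℕ) : ℝ) := by exact_mod_cast h1
  refine h2.trans ((sum_le_sum hk).trans ?_)
  rw [sum_const, nsmul_eq_mul, Nat.card_Icc]
  have h3 : ((Y - 1 + 1 - 1 : ℕ) : ℝ) ≤ Y := by
    have : Y - 1 + 1 - 1 ≤ Y := by omega
    exact_mod_cast this
  have hl2 : 0 < Real.log 2 := Real.log_pos (by norm_num)
  have hla : 0 ≤ Real.log ((|a| : ℤ) : ℝ) := Real.log_nonneg (by
    have : (2 : ℝ) ≤ ((|a| : ℤ) : ℝ) := by exact_mod_cast ha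
    linarith)
  have h4 : 0 ≤ Real.log ((|a| : ℤ) : ℝ) / Real.log 2 := div_nonneg hla hl2.le
  push_cast at h4 ⊢
  calc _ ≤ (Y : ℝ) * ((Real.log |(a : ℝ)| / Real.log 2 + 1) * Y) := by
        apply mul_le_mul_of_nonneg_right _ (by positivity)
        exact_mod_cast h3
    _ = _ := by ring

end Run7.h609.DV
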