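import Mathlib
import Pool.Agent.Run7.h609.DV.B

/-! Numbers with a large divisor in a thin set: saving of logarithms, orders of integers modulo primes (helper609) -/

set_option autoImplicit false

namespace Run7.h609.DV

open Finset

/-- `(1 + log N) ^ U` is at most a constant times the square root -/
lemma log_pow_le (U : ℕ) : ∃ C : ℝ, 0 < C ∧ ∀ N : ℕ, 1 ≤ N → (1 + Real.log N) ^ U ≤ C * (N : ℝ) ^ (1 / 2 : ℝ) := by
  obtain ⟨e, he⟩ : ∃ e : ℝ, e = 1 / (2 * ((U : ℝ) + 1)) := ⟨_, rfl⟩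
  have he0 : 0 < e := by rw [he]; positivity
  refine ⟨(1 + 1 / e) ^ U, by positivity, fun N hN => ?_⟩
  have hN1 : (1 : ℝ) ≤ N := by exact_mod_cast hN
  have hN0 : (0 : ℝ) < N := by linarith
  have h1 := Real.log_le_rpow_div hN0.le he0
  have h2 : (1 : ℝ) ≤ (N : ℝ) ^ e := Real.one_le_rpow hN1 he0.le
  have h3 : 1 + Real.log N ≤ (1 + 1 / e) * (N : ℝ) ^ e := by
    have : (1 + 1 / e) * (N : ℝ) ^ e = (N : ℝ) ^ e + (N : ℝ) ^ e / e := by ring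
    rw [this]
    linarith
  have h4 : 0 ≤ Real.log N := Real.log_nonneg hN1
  calc (1 + Real.log N) ^ U ≤ ((1 + 1 / e) * (N : ℝ) ^ e) ^ U := pow_le_pow_left₀ (by linarith) h3 _
    _ = (1 + 1 / e) ^ U * (N : ℝ) ^ (e * U) := by
      rw [mul_pow, ← Real.rpow_natCast ((N : ℝ) ^ e) U, ← Real.rpow_mul hN0.le]
    _ ≤ (1 + 1 / e) ^ U * (N : ℝ) ^ (1 / 2 : ℝ) := by
      apply mul_le_mul_of_nonneg_left _ (by positivity)
      apply Real.rpow_le_rpow_of_exponent_le hN1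
      rw [he]
      have : (0 : ℝ) ≤ U := Nat.cast_nonneg U
      rw [div_mul_eq_mul_div, one_mul, div_le_div_iff₀ (by positivity) (by norm_num)]
      linarith

open Classical in
/-- **saving of every power of the logarithm** -/
theorem div_log (B : Set ℕ)
    (hB : ∀ U : ℕ, ∃ K : ℝ, ∀ X : ℕ, 1 ≤ X →
      (((Icc 1 X).filter (fun m => m ∈ B)).card : ℝ) ≤ K * X / (1 + Real.log X) ^ U)
    {δ : ℝ} (hδ : 0 < δ) (hδ1 : δ ≤ 1) (U : ℕ) :
    ∃ C : ℝ, 0 < C ∧ ∀ N : ℕ, 1 ≤ N →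
      (((Icc 1 N).filter (fun n => ∃ m ∈ B, m ∣ n ∧ (n : ℝ) ^ δ ≤ m)).card : ℝ) ≤ C * N / (1 + Real.log N) ^ U := by
  obtain ⟨K, hK⟩ := hB (U + 1)
  obtain ⟨L, hL0, hL⟩ := log_pow_le U
  refine ⟨L + 4 * |K| * (2 / δ) ^ (U + 1) + 1, by positivity, fun N hN => ?_⟩
  have hN1 : (1 : ℝ) ≤ N := by exact_mod_cast hN
  have hN0 : (0 : ℝ) < N := by linarith
  have hl0 : 0 ≤ Real.log N := Real.log_nonneg hN1
  have hl1 : 0 < 1 + Real.log N := by linarith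
  have h1 := split B hδ hδ1 hN (s := |K| * (2 / δ) ^ (U + 1) / (1 + Real.log N) ^ (U + 1)) (by positivity)
    (fun X hX hXN => by
      have hX1 : (1 : ℝ) ≤ X := (Real.one_le_rpow hN1 (by linarith)).trans hX
      have hX1' : 1 ≤ X := by exact_mod_cast hX1
      have hX0 : (0 : ℝ) < X := by linarith
      have h2 : δ / 2 * (1 + Real.log N) ≤ 1 + Real.log X := by
        have h3 := Real.log_le_log (by positivity) hX
        rw [Real.log_rpow hN0] at h3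
        nlinarith
      have h4 : (δ / 2 * (1 + Real.log N)) ^ (U + 1) ≤ (1 + Real.log X) ^ (U + 1) :=
        pow_le_pow_left₀ (by positivity) h2 _
      calc (((Icc 1 X).filter (fun m => m ∈ B)).card : ℝ) ≤ K * X / (1 + Real.log X) ^ (U + 1) := hK X hX1'
        _ ≤ |K| * X / (1 + Real.log X) ^ (U + 1) := by
          have : 0 ≤ Real.log (X : ℝ) := Real.log_nonneg hX1
          gcongr
          exact le_abs_self K
        _ ≤ |K| * X / (δ / 2 * (1 + Real.log N)) ^ (U + 1) :=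
          div_le_div_of_nonneg_left (by positivity) (by positivity) h4
        _ = |K| * (2 / δ) ^ (U + 1) / (1 + Real.log N) ^ (U + 1) * X := by
          rw [mul_pow, _root_.div_pow, _root_.div_pow]
          field_simp)
  have h5 : (N : ℝ) ^ (1 / 2 : ℝ) ≤ L * N / (1 + Real.log N) ^ U := by
    rw [le_div_iff₀ (by positivity)]
    have h6 : (N : ℝ) ^ (1 / 2 : ℝ) * (N : ℝ) ^ (1 / 2 : ℝ) = N := by
      rw [← Real.rpow_add hN0]
      norm_num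
    calc (N : ℝ) ^ (1 / 2 : ℝ) * (1 + Real.log N) ^ U ≤ (N : ℝ) ^ (1 / 2 : ℝ) * (L * (N : ℝ) ^ (1 / 2 : ℝ)) :=
          mul_le_mul_of_nonneg_left (hL N hN) (by positivity)
      _ = L * ((N : ℝ) ^ (1 / 2 : ℝ) * (N : ℝ) ^ (1 / 2 : ℝ)) := by ring
      _ = L * N := by rw [h6]
  have h7 : 2 * (|K| * (2 / δ) ^ (U + 1) / (1 + Real.log N) ^ (U + 1)) * N * (2 * Real.log N + 1) ≤
      4 * |K| * (2 / δ) ^ (U + 1) * N / (1 + Real.log N) ^ U := by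
    have h8 : 2 * Real.log N + 1 ≤ 2 * (1 + Real.log N) := by linarith
    calc 2 * (|K| * (2 / δ) ^ (U + 1) / (1 + Real.log N) ^ (U + 1)) * N * (2 * Real.log N + 1)
        ≤ 2 * (|K| * (2 / δ) ^ (U + 1) / (1 + Real.log N) ^ (U + 1)) * N * (2 * (1 + Real.log N)) :=
          mul_le_mul_of_nonneg_left h8 (by positivity)
      _ = 4 * |K| * (2 / δ) ^ (U + 1) * N / (1 + Real.log N) ^ U := by
          rw [pow_succ (1 + Real.log N) U]
          field_simp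
          ring
  have h9 : 0 ≤ (N : ℝ) / (1 + Real.log N) ^ U := by positivity
  calc (((Icc 1 N).filter (fun n => ∃ m ∈ B, m ∣ n ∧ (n : ℝ) ^ δ ≤ m)).card : ℝ)
      ≤ L * N / (1 + Real.log N) ^ U + 4 * |K| * (2 / δ) ^ (U + 1) * N / (1 + Real.log N) ^ U := by linarith
    _ ≤ (L + 4 * |K| * (2 / δ) ^ (U + 1) + 1) * N / (1 + Real.log N) ^ U := by
      have : (L + 4 * |K| * (2 / δ) ^ (U + 1) + 1) * N / (1 + Real.log N) ^ U =
        L * N / (1 + Real.log N) ^ U + 4 * |K| * (2 / δ) ^ (U + 1) * N / (1 + Real.log N) ^ U +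
          (N : ℝ) / (1 + Real.log N) ^ U := by ring
      rw [this]
      linarith

open Classical in
/-- the primes for which the order of `a` is in `B` -/
theorem ord_split (B : Set ℕ) {a : ℤ} (ha : 2 ≤ |a|) {N : ℕ} (hN : 1 ≤ N) :
    (((Icc 1 N).filter (fun p : ℕ => p.Prime ∧ ¬ (p : ℤ) ∣ a ∧ orderOf (a : ZMod p) ∈ B)).card : ℝ) ≤
      4 * (Real.log |a| / Real.log 2 + 1) * (N : ℝ) ^ (1 / 2 : ℝ) +
        (((Icc 1 N).filter (fun n : ℕ => ∃ m ∈ B, m ∣ n ∧ (n : ℝ) ^ (1 / 4 : ℝ) ≤ m)).card : ℝ) := by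
  have hN1 : (1 : ℝ) ≤ N := by exact_mod_cast hN
  have hN0 : (0 : ℝ) < N := by linarith
  obtain ⟨Y, hY⟩ : ∃ Y : ℕ, Y = ⌈(N : ℝ) ^ (1 / 4 : ℝ)⌉₊ := ⟨_, rfl⟩
  have hP : (1 : ℝ) ≤ (N : ℝ) ^ (1 / 4 : ℝ) := Real.one_le_rpow hN1 (by norm_num)
  have h1 := small_order ha N Y
  have hsub : (Icc 1 N).filter (fun p : ℕ => p.Prime ∧ ¬ (p : ℤ) ∣ a ∧ orderOf (a : ZMod p) ∈ B) ⊆
      (Icc 1 N).filter (fun p : ℕ => p.Prime ∧ ¬ (p : ℤ) ∣ a ∧ orderOf (a : ZMod p) < Y) ∪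
      ((Icc 1 N).filter (fun n : ℕ => ∃ m ∈ B, m ∣ n ∧ (n : ℝ) ^ (1 / 4 : ℝ) ≤ m)).image (fun n => n + 1) := by
    intro p hp
    rw [mem_filter, mem_Icc] at hp
    obtain ⟨⟨hp1, hpN⟩, hpp, hpa, hB⟩ := hp
    rw [mem_union, mem_filter, mem_Icc, mem_image]
    by_cases h : orderOf (a : ZMod p) < Y
    · left
      exact ⟨⟨hp1, hpN⟩, hpp, hpa, h⟩
    · right
      push Not at h
      have : Fact p.Prime := ⟨hpp⟩
      have hne : (a : ZMod p) ≠ 0 := fun h => hpa ((ZMod.intCast_zmod_eq_zero_iff_dvd _ _).1 h)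
      have hp2 := hpp.two_le
      refine ⟨p - 1, ?_, by omega⟩
      rw [mem_filter, mem_Icc]
      refine ⟨⟨by omega, by omega⟩, orderOf (a : ZMod p), hB, orderOf_dvd_of_pow_eq_one (ZMod.pow_card_sub_one_eq_one hne), ?_⟩
      have h3 : ((p - 1 : ℕ) : ℝ) ≤ N := by
        have : p - 1 ≤ N := by omega
        exact_mod_cast this
      calc ((p - 1 : ℕ) : ℝ) ^ (1 / 4 : ℝ) ≤ (N : ℝ) ^ (1 / 4 : ℝ) :=
            Real.rpow_le_rpow (Nat.cast_nonneg _) h3 (by norm_num)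
        _ ≤ Y := by rw [hY]; exact Nat.le_ceil _
        _ ≤ _ := by exact_mod_cast h
  have h2 := (card_le_card hsub).trans (card_union_le _ _)
  have h3 := card_image_le (s := (Icc 1 N).filter (fun n : ℕ => ∃ m ∈ B, m ∣ n ∧ (n : ℝ) ^ (1 / 4 : ℝ) ≤ m))
    (f := fun n => n + 1)
  have h4 : (Y : ℝ) ^ 2 ≤ 4 * (N : ℝ) ^ (1 / 2 : ℝ) := by
    have h5 : (Y : ℝ) < (N : ℝ) ^ (1 / 4 : ℝ) + 1 := by rw [hY]; exact Nat.ceil_lt_add_one (by positivity)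
    have h6 : (Y : ℝ) ≤ 2 * (N : ℝ) ^ (1 / 4 : ℝ) := by linarith
    have h7 : (N : ℝ) ^ (1 / 2 : ℝ) = ((N : ℝ) ^ (1 / 4 : ℝ)) ^ 2 := by
      rw [← Real.rpow_natCast, ← Real.rpow_mul hN0.le]
      norm_num
    rw [h7]
    have h8 : (0 : ℝ) ≤ Y := Nat.cast_nonneg Y
    nlinarith
  have hl2 : 0 < Real.log 2 := Real.log_pos (by norm_num)
  have hla : 0 ≤ Real.log ((|a| : ℤ) : ℝ) := Real.log_nonneg (by
    have : (2 : ℝ) ≤ ((|a| : ℤ) : ℝ) := by exact_mod_cast ha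
    linarith)
  have h9 : 0 ≤ Real.log ((|a| : ℤ) : ℝ) / Real.log 2 := div_nonneg hla hl2.le
  have h10 : (((Icc 1 N).filter (fun p : ℕ => p.Prime ∧ ¬ (p : ℤ) ∣ a ∧ orderOf (a : ZMod p) ∈ B)).card : ℝ) ≤
      (((Icc 1 N).filter (fun p : ℕ => p.Prime ∧ ¬ (p : ℤ) ∣ a ∧ orderOf (a : ZMod p) < Y)).card : ℝ) +
        (((Icc 1 N).filter (fun n : ℕ => ∃ m ∈ B, m ∣ n ∧ (n : ℝ) ^ (1 / 4 : ℝ) ≤ m)).card : ℝ) := by
    exact_mod_cast h2.trans (Nat.add_le_add_left h3 _)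
  push_cast at h9 h1 ⊢
  nlinarith

open Classical in
/-- **orders, power saving** -/
theorem ord_pow (B : Set ℕ) {σ K : ℝ} (hσ : σ < 1)
    (hB : ∀ X : ℕ, 1 ≤ X → (((Icc 1 X).filter (fun m => m ∈ B)).card : ℝ) ≤ K * (X : ℝ) ^ σ)
    {a : ℤ} (ha : 2 ≤ |a|) :
    ∃ η C : ℝ, 0 < η ∧ ∀ N : ℕ, 1 ≤ N →
      (((Icc 1 N).filter (fun p : ℕ => p.Prime ∧ ¬ (p : ℤ) ∣ a ∧ orderOf (a : ZMod p) ∈ B)).card : ℝ) ≤
        C * (N : ℝ) ^ (1 - η) := by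
  obtain ⟨η, C, hη, h⟩ := div_pow B hσ hB (δ := 1 / 4) (by norm_num) (by norm_num)
  have hl2 : 0 < Real.log 2 := Real.log_pos (by norm_num)
  have hla : 0 ≤ Real.log ((|a| : ℤ) : ℝ) := Real.log_nonneg (by
    have : (2 : ℝ) ≤ ((|a| : ℤ) : ℝ) := by exact_mod_cast ha
    linarith)
  have h9 : 0 ≤ Real.log ((|a| : ℤ) : ℝ) / Real.log 2 := div_nonneg hla hl2.le
  refine ⟨min η (1 / 2), 4 * (Real.log |a| / Real.log 2 + 1) + |C|, lt_min hη (by norm_num), fun N hN => ?_⟩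
  have hN1 : (1 : ℝ) ≤ N := by exact_mod_cast hN
  have h1 := ord_split B ha hN
  have h2 := h N hN
  have h3 : (N : ℝ) ^ (1 / 2 : ℝ) ≤ (N : ℝ) ^ (1 - min η (1 / 2)) :=
    Real.rpow_le_rpow_of_exponent_le hN1 (by linarith [min_le_right η (1 / 2)])
  have h4 : C * (N : ℝ) ^ (1 - η) ≤ |C| * (N : ℝ) ^ (1 - min η (1 / 2)) :=
    (mul_le_mul_of_nonneg_right (le_abs_self _) (by positivity)).trans
      (mul_le_mul_of_nonneg_left (Real.rpow_le_rpow_of_exponent_le hN1 (by linarith [min_le_left η (1 / 2)])) (abs_nonneg _))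
  have h5 : 4 * (Real.log |a| / Real.log 2 + 1) * (N : ℝ) ^ (1 / 2 : ℝ) ≤
      4 * (Real.log |a| / Real.log 2 + 1) * (N : ℝ) ^ (1 - min η (1 / 2)) := by
    apply mul_le_mul_of_nonneg_left h3
    push_cast at h9 ⊢
    linarith
  calc _ ≤ 4 * (Real.log |a| / Real.log 2 + 1) * (N : ℝ) ^ (1 / 2 : ℝ) + C * (N : ℝ) ^ (1 - η) := h1.trans (by linarith)
    _ ≤ 4 * (Real.log |a| / Real.log 2 + 1) * (N : ℝ) ^ (1 - min η (1 / 2)) + |C| * (N : ℝ) ^ (1 - min η (1 / 2)) := by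
      linarith
    _ = _ := by ring

open Classical in
/-- **orders, saving of every power of the logarithm** -/
theorem ord_log (B : Set ℕ)
    (hB : ∀ U : ℕ, ∃ K : ℝ, ∀ X : ℕ, 1 ≤ X →
      (((Icc 1 X).filter (fun m => m ∈ B)).card : ℝ) ≤ K * X / (1 + Real.log X) ^ U)
    {a : ℤ} (ha : 2 ≤ |a|) (U : ℕ) :
    ∃ C : ℝ, 0 < C ∧ ∀ N : ℕ, 1 ≤ N →
      (((Icc 1 N).filter (fun p : ℕ => p.Prime ∧ ¬ (p : ℤ) ∣ a ∧ orderOf (a : ZMod p) ∈ B)).card : ℝ) ≤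
        C * N / (1 + Real.log N) ^ U := by
  obtain ⟨C, hC, h⟩ := div_log B hB (δ := 1 / 4) (by norm_num) (by norm_num) U
  obtain ⟨L, hL0, hL⟩ := log_pow_le U
  have hl2 : 0 < Real.log 2 := Real.log_pos (by norm_num)
  have hla : 0 ≤ Real.log ((|a| : ℤ) : ℝ) := Real.log_nonneg (by
    have : (2 : ℝ) ≤ ((|a| : ℤ) : ℝ) := by exact_mod_cast ha
    linarith)
  have h9 : 0 ≤ Real.log ((|a| : ℤ) : ℝ) / Real.log 2 := div_nonneg hla hl2.le
  push_cast at h9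
  refine ⟨4 * (Real.log |a| / Real.log 2 + 1) * L + C, by push_cast; positivity, fun N hN => ?_⟩
  have hN1 : (1 : ℝ) ≤ N := by exact_mod_cast hN
  have hN0 : (0 : ℝ) < N := by linarith
  have hl0 : 0 ≤ Real.log N := Real.log_nonneg hN1
  have h1 := ord_split B ha hN
  have h2 := h N hN
  have h5 : (N : ℝ) ^ (1 / 2 : ℝ) ≤ L * N / (1 + Real.log N) ^ U := by
    rw [le_div_iff₀ (by positivity)]
    have h6 : (N : ℝ) ^ (1 / 2 : ℝ) * (N : ℝ) ^ (1 / 2 : ℝ) = N := by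
      rw [← Real.rpow_add hN0]
      norm_num
    calc (N : ℝ) ^ (1 / 2 : ℝ) * (1 + Real.log N) ^ U ≤ (N : ℝ) ^ (1 / 2 : ℝ) * (L * (N : ℝ) ^ (1 / 2 : ℝ)) :=
          mul_le_mul_of_nonneg_left (hL N hN) (by positivity)
      _ = L * ((N : ℝ) ^ (1 / 2 : ℝ) * (N : ℝ) ^ (1 / 2 : ℝ)) := by ring
      _ = L * N := by rw [h6]
  have h6 := mul_le_mul_of_nonneg_left h5 (show 0 ≤ 4 * (Real.log |a| / Real.log 2 + 1) by push_cast; positivity)
  calc _ ≤ 4 * (Real.log |a| / Real.log 2 + 1) * (L * N / (1 + Real.log N) ^ U) + C * N / (1 + Real.log N) ^ U :=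
        h1.trans (add_le_add h6 h2)
    _ = _ := by ring

end Run7.h609.DV
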